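import Pool.Agent.Y283.NK.Stm2

/-!
Job NK-ANN: vectors with disjoint local spectra annihilate each other.
-/

set_option autoImplicit false
set_option linter.all false

namespace Pool.Agent.Y529.NK.ANN

open MeasureTheory Set Metric Filter Topology
open scoped InnerProductSpace ENNReal NNReal ComplexConjugate
open Pool.Agent.Y283.NK

/-- the vectors `Q x`, `Q` in the commutant -/
def V0 {H : Type} [NormedAddCommGroup H] [InnerProductSpace ℂ H] (T : H →L[ℂ] H) (x : H) :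
    Submodule ℂ H where
  carrier := {y | ∃ Q : H →L[ℂ] H, Q * T = T * Q ∧ Q x = y}
  add_mem' := by
    rintro _ _ ⟨Q, hQ, rfl⟩ ⟨Q', hQ', rfl⟩
    exact ⟨Q + Q', by rw [add_mul, mul_add, hQ, hQ'], rfl⟩
  zero_mem' := ⟨0, by rw [zero_mul, mul_zero], rfl⟩
  smul_mem' := by
    rintro c _ ⟨Q, hQ, rfl⟩
    exact ⟨c • Q, by rw [smul_mul_assoc, mul_smul_comm, hQ], rfl⟩

theorem V0_inv {H : Type} [NormedAddCommGroup H] [InnerProductSpace ℂ H] {T : H →L[ℂ] H} {x : H}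
    {Q : H →L[ℂ] H} (hQ : Q * T = T * Q) {y : H} (hy : y ∈ V0 T x) : Q y ∈ V0 T x := by
  obtain ⟨Q', hQ', rfl⟩ := hy
  exact ⟨Q * Q', by rw [mul_assoc, hQ', ← mul_assoc, hQ, mul_assoc], rfl⟩

theorem zero_of {x K ρ δ : ℝ} (hδ : 0 < δ) (hρ : 0 ≤ ρ) (h : ρ < δ) (hx : 0 ≤ x)
    (hb : ∀ n : ℕ, δ ^ n * x ≤ K * ρ ^ n) : x = 0 := by
  have h1 : ∀ n : ℕ, x ≤ K * (ρ / δ) ^ n := by
    intro n
    have h2 := hb n
    rw [div_pow, ← mul_div_assoc, le_div_iff₀ (pow_pos hδ n), mul_comm]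
    exact h2
  have h3 : Tendsto (fun n : ℕ => K * (ρ / δ) ^ n) atTop (𝓝 (K * 0)) :=
    (tendsto_pow_atTop_nhds_zero_of_lt_one (div_nonneg hρ hδ.le) ((div_lt_one hδ).2 h)).const_mul K
  rw [mul_zero] at h3
  exact le_antisymm (ge_of_tendsto' h3 h1) hx

theorem main : S_ANN := by
  intro H _ _ _ T c₁ c₂ r₁ r₂ C₁ C₂ X Y hr1 hr2 hr hX hXb hY hYb hX0 hY0
  have horth : ∀ Q : H →L[ℂ] H, Q * T = T * Q → ⟪Y 0, Q (X 0)⟫_ℂ = 0 := by
    intro Q hQ
    have hrec : ∀ a b, ⟪Y (b + 1), Q (X a)⟫_ℂ - ⟪Y b, Q (X (a + 1))⟫_ℂ =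
        (c₁ - c₂) * ⟪Y b, Q (X a)⟫_ℂ := by
      intro a b
      have e1 : Q (T (X a)) = T (Q (X a)) := by
        have := congrArg (fun R : H →L[ℂ] H => R (X a)) hQ
        exact this
      rw [← hX a, ← hY b, inner_sub_left, ContinuousLinearMap.adjoint_inner_left,
        inner_smul_left, map_sub, map_smul, inner_sub_right, inner_smul_right, e1,
        Complex.conj_conj]
      ring
    have hC1 : 0 ≤ C₁ := by
      have := (norm_nonneg _).trans (hXb 0)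
      simpa using this
    have hC2 : 0 ≤ C₂ := by
      have := (norm_nonneg _).trans (hYb 0)
      simpa using this
    have hbd : ∀ n a b : ℕ, ‖c₁ - c₂‖ ^ n * ‖⟪Y b, Q (X a)⟫_ℂ‖ ≤
        ‖Q‖ * C₁ * C₂ * (r₁ + r₂) ^ n * (r₁ ^ a * r₂ ^ b) := by
      intro n
      induction n with
      | zero =>
        intro a b
        have h1 : ‖⟪Y b, Q (X a)⟫_ℂ‖ ≤ ‖Y b‖ * (‖Q‖ * ‖X a‖) :=
          (norm_inner_le_norm _ _).trans
            (mul_le_mul_of_nonneg_left (Q.le_opNorm _) (norm_nonneg _))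
        have h2 : ‖Y b‖ * (‖Q‖ * ‖X a‖) ≤ (C₂ * r₂ ^ b) * (‖Q‖ * (C₁ * r₁ ^ a)) := by
          refine mul_le_mul (hYb b) (mul_le_mul_of_nonneg_left (hXb a) (norm_nonneg _))
            (by positivity) (by positivity)
        rw [pow_zero, one_mul, pow_zero, mul_one]
        refine (h1.trans h2).trans (le_of_eq (by ring))
      | succ n ih =>
        intro a b
        have h1 := ih a (b + 1)
        have h2 := ih (a + 1) b
        have h3 : ‖c₁ - c₂‖ * ‖⟪Y b, Q (X a)⟫_ℂ‖ ≤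
            ‖⟪Y (b + 1), Q (X a)⟫_ℂ‖ + ‖⟪Y b, Q (X (a + 1))⟫_ℂ‖ := by
          rw [← norm_mul, ← hrec a b]
          exact norm_sub_le _ _
        calc ‖c₁ - c₂‖ ^ (n + 1) * ‖⟪Y b, Q (X a)⟫_ℂ‖
            = ‖c₁ - c₂‖ ^ n * (‖c₁ - c₂‖ * ‖⟪Y b, Q (X a)⟫_ℂ‖) := by ring
          _ ≤ ‖c₁ - c₂‖ ^ n * (‖⟪Y (b + 1), Q (X a)⟫_ℂ‖ + ‖⟪Y b, Q (X (a + 1))⟫_ℂ‖) :=
              mul_le_mul_of_nonneg_left h3 (by positivity)
          _ ≤ ‖Q‖ * C₁ * C₂ * (r₁ + r₂) ^ n * (r₁ ^ a * r₂ ^ (b + 1)) +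
              ‖Q‖ * C₁ * C₂ * (r₁ + r₂) ^ n * (r₁ ^ (a + 1) * r₂ ^ b) := by
              rw [mul_add]
              exact add_le_add h1 h2
          _ = _ := by ring
    have h0 := zero_of (x := ‖⟪Y 0, Q (X 0)⟫_ℂ‖) (K := ‖Q‖ * C₁ * C₂) (ρ := r₁ + r₂)
      (δ := ‖c₁ - c₂‖) (lt_of_le_of_lt (by positivity) hr) (by positivity) hr (norm_nonneg _)
      (fun n => by simpa using hbd n 0 0)
    exact norm_eq_zero.1 h0
  refine ⟨(V0 T (X 0)).topologicalClosure, Submodule.isClosed_topologicalClosure _, ?_, ?_, ?_⟩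
  · intro h
    have h1 : X 0 ∈ (V0 T (X 0)).topologicalClosure :=
      Submodule.le_topologicalClosure _ ⟨1, by rw [one_mul, mul_one], rfl⟩
    rw [h, Submodule.mem_bot] at h1
    exact hX0 h1
  · intro h
    have h1 : Y 0 ∈ (V0 T (X 0)).topologicalClosure := by rw [h]; exact Submodule.mem_top
    have h2 : ((V0 T (X 0)).topologicalClosure : Set H) ⊆ {y | ⟪Y 0, y⟫_ℂ = 0} := by
      rw [Submodule.topologicalClosure_coe]
      refine closure_minimal ?_ (isClosed_eq (by fun_prop) continuous_const)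
      rintro _ ⟨Q, hQ, rfl⟩
      exact horth Q hQ
    have h3 : ⟪Y 0, Y 0⟫_ℂ = 0 := h2 h1
    exact hY0 (inner_self_eq_zero.1 h3)
  · intro Q hQ x hx
    have h1 : x ∈ closure ((V0 T (X 0)) : Set H) := by
      rw [← Submodule.topologicalClosure_coe]; exact hx
    have h2 : Q x ∈ closure ((V0 T (X 0)) : Set H) :=
      map_mem_closure Q.continuous h1 fun y hy => V0_inv hQ hy
    rw [← Submodule.topologicalClosure_coe] at h2
    exact h2

end Pool.Agent.Y529.NK.ANN
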